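import Pool.Agent.Helper15.EP.St

set_option autoImplicit false

/-!
Project EP, module KPT: from two large factors to all tuples.
-/

open Polynomial

namespace Pool.Agent.Helper40.EP

open Pool.Agent.Helper15.FC Pool.Agent.Helper15.EP

noncomputable section

/-- tuples with the entries `1` at `j`, `j'` -/
def RR (F : Type) [Field F] [Fintype F] {l : ℕ} (y : Fin l → ℕ) (j j' : Fin l) :
    Finset (Fin l → F[X]) :=
  Fintype.piFinset (fun i => if i = j ∨ i = j' then {1} else Mn F (y i))

/-- put `x`, `z` at the places `j`, `j'` -/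
def ins {F : Type} [Field F] {l : ℕ} (j j' : Fin l) (c : Fin l → F[X]) (x z : F[X]) :
    Fin l → F[X] :=
  fun i => c i * (if i = j then x else 1) * (if i = j' then z else 1)

private theorem ins_prod {F : Type} [Field F] {l : ℕ} (j j' : Fin l) (c : Fin l → F[X])
    (x z : F[X]) : ∏ i, ins j j' c x z i = (∏ i, c i) * x * z := by
  unfold ins
  rw [Finset.prod_mul_distrib, Finset.prod_mul_distrib, Finset.prod_ite_eq' Finset.univ j,
    Finset.prod_ite_eq' Finset.univ j', if_pos (Finset.mem_univ _), if_pos (Finset.mem_univ _)]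

private theorem sum_tup {F : Type} [Field F] [Fintype F] {l : ℕ} (y : Fin l → ℕ) (j j' : Fin l)
    (hj : j ≠ j') (G : (Fin l → F[X]) → ℝ) :
    ∑ b ∈ Tup F y, G b = ∑ c ∈ RR F y j j', ∑ p ∈ Mn F (y j) ×ˢ Mn F (y j'),
      G (ins j j' c p.1 p.2) := by
  rw [← Finset.sum_product']
  symm
  refine Finset.sum_nbij' (fun q => ins j j' q.1 q.2.1 q.2.2)
    (fun b => (fun i => if i = j ∨ i = j' then 1 else b i, (b j, b j'))) ?_ ?_ ?_ ?_ ?_
  · rintro ⟨c, x, z⟩ h
    rw [Finset.mem_product, Finset.mem_product] at h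
    obtain ⟨hc, hx, hz⟩ := h
    simp only at hc hx hz
    unfold RR at hc
    rw [Fintype.mem_piFinset] at hc
    unfold Tup
    rw [Fintype.mem_piFinset]
    intro i
    have hi := hc i
    simp only [ins]
    by_cases h1 : i = j
    · subst h1
      rw [if_pos (Or.inl rfl), Finset.mem_singleton] at hi
      rw [hi, if_pos rfl, if_neg hj, one_mul, mul_one]
      exact hx
    · by_cases h2 : i = j'
      · subst h2
        rw [if_pos (Or.inr rfl), Finset.mem_singleton] at hi
        rw [hi, if_neg h1, if_pos rfl, one_mul, one_mul]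
        exact hz
      · rw [if_neg (by tauto)] at hi
        rw [if_neg h1, if_neg h2, mul_one, mul_one]
        exact hi
  · intro b hb
    unfold Tup at hb
    rw [Fintype.mem_piFinset] at hb
    rw [Finset.mem_product, Finset.mem_product]
    refine ⟨?_, hb j, hb j'⟩
    unfold RR
    rw [Fintype.mem_piFinset]
    intro i
    by_cases h : i = j ∨ i = j'
    · simp only [if_pos h, Finset.mem_singleton]
    · simp only [if_neg h]
      exact hb i
  · rintro ⟨c, x, z⟩ h
    rw [Finset.mem_product, Finset.mem_product] at h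
    obtain ⟨hc, hx, hz⟩ := h
    simp only at hc hx hz
    unfold RR at hc
    rw [Fintype.mem_piFinset] at hc
    have e1 : c j = 1 := by
      have := hc j
      rwa [if_pos (Or.inl rfl), Finset.mem_singleton] at this
    have e2 : c j' = 1 := by
      have := hc j'
      rwa [if_pos (Or.inr rfl), Finset.mem_singleton] at this
    refine Prod.ext ?_ (Prod.ext ?_ ?_)
    · funext i
      simp only [ins]
      by_cases h1 : i = j
      · subst h1
        rw [if_pos (Or.inl rfl), e1]
      · by_cases h2 : i = j'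
        · subst h2
          rw [if_pos (Or.inr rfl), e2]
        · rw [if_neg (by tauto), if_neg h1, if_neg h2, mul_one, mul_one]
    · simp only [ins, if_true, if_neg hj, e1, one_mul, mul_one]
    · simp only [ins, if_true, if_neg (Ne.symm hj), e2, one_mul]
  · intro b hb
    funext i
    simp only [ins]
    by_cases h1 : i = j
    · subst h1
      rw [if_pos (Or.inl rfl), if_pos rfl, if_neg hj, one_mul, mul_one]
    · by_cases h2 : i = j'
      · subst h2
        rw [if_pos (Or.inr rfl), if_neg h1, if_pos rfl, one_mul, one_mul]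
      · rw [if_neg (by tauto), if_neg h1, if_neg h2, mul_one, mul_one]
  · rintro ⟨c, x, z⟩ -
    rfl

private theorem ap_eq {F : Type} [Field F] [Fintype F] {l : ℕ} (y : Fin l → ℕ) (j j' : Fin l)
    (hj : j ≠ j') (m t : F[X]) :
    (AP y m t : ℝ) = ∑ c ∈ RR F y j j', (A2 (y j) (y j') m (∏ i, c i) t : ℝ) := by
  classical
  unfold AP A2
  rw [Finset.card_filter, Nat.cast_sum]
  have h := sum_tup (F := F) y j j' hj
    (fun b => ((if m ∣ (∏ i, b i) - t then 1 else 0 : ℕ) : ℝ))
  refine Eq.trans ?_ (h.trans ?_)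
  · exact Finset.sum_congr rfl fun b _ => rfl
  · refine Finset.sum_congr rfl fun c _ => ?_
    rw [Finset.card_filter, Nat.cast_sum]
    refine Finset.sum_congr rfl fun p _ => ?_
    rw [ins_prod]

private theorem card_tup {F : Type} [Field F] [Fintype F] {l : ℕ} (y : Fin l → ℕ)
    (j j' : Fin l) (hj : j ≠ j') :
    ((RR F y j j').card : ℝ) * qr F ^ (y j + y j') = qr F ^ (∑ i, y i) := by
  have h := sum_tup (F := F) y j j' hj (fun _ => 1)
  rw [Finset.sum_const, Finset.sum_const, Finset.sum_const, Finset.card_product, card_Mn,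
    card_Mn] at h
  unfold Tup at h
  rw [Fintype.card_piFinset] at h
  simp only [card_Mn, nsmul_eq_mul, mul_one, Nat.cast_mul, Nat.cast_prod, Nat.cast_pow] at h
  unfold qr
  rw [pow_add, ← Finset.prod_pow_eq_pow_sum]
  exact h.symm

theorem hKPT (hKCN : StKCN) : StKPT := by
  intro F _ _ l y j j' m1 m2 t hj h1 h2 hsq hc hct ht
  have hq : (0 : ℝ) ≤ qr F ^ (y j + y j') := by
    unfold qr
    positivity
  obtain ⟨B, hB⟩ : ∃ B : ℝ, B = 2 * tau m1 ^ 2 * qr F ^ t.natDegree *
      Real.sqrt (qr F) ^ m1.natDegree * qr F ^ m2.natDegree := ⟨_, rfl⟩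
  rw [← hB]
  have hAV : AV y (m1 * m2) t = ∑ c ∈ RR F y j j', (1 / (phi (m1 * m2) : ℝ)) *
      ∑ u ∈ Lc (m1 * m2), (A2 (y j) (y j') (m1 * m2) (∏ i, c i) (u * t) : ℝ) := by
    unfold AV
    rw [Finset.sum_congr rfl fun u _ => ap_eq y j j' hj (m1 * m2) (u * t), Finset.sum_comm,
      Finset.mul_sum]
  have hk : |(AP y (m1 * m2) t : ℝ) - AV y (m1 * m2) t| ≤ (RR F y j j').card * B := by
    rw [ap_eq y j j' hj, hAV, ← Finset.sum_sub_distrib]
    refine (Finset.abs_sum_le_sum_abs _ _).trans ?_
    rw [← nsmul_eq_mul, ← Finset.sum_const]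
    refine Finset.sum_le_sum fun c _ => ?_
    rw [hB]
    exact hKCN F m1 m2 (∏ i, c i) t (y j) (y j') h1 h2 hsq hc hct ht
  calc |(AP y (m1 * m2) t : ℝ) - AV y (m1 * m2) t| * qr F ^ (y j + y j')
      ≤ (RR F y j j').card * B * qr F ^ (y j + y j') := mul_le_mul_of_nonneg_right hk hq
    _ = ((RR F y j j').card * qr F ^ (y j + y j')) * B := by ring
    _ = qr F ^ (∑ i, y i) * B := by rw [card_tup y j j' hj]

end

end Pool.Agent.Helper40.EP
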