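import Pool.Agent.Helper68.EP.St4

/-!
# Project EP (MP_cb927e_an), module EZK: the numbers
-/

set_option autoImplicit false

namespace Pool.Agent.Helper40.EP

open Pool.Agent.Helper68.EP Pool.Agent.Helper20.RG
open Pool.Agent.Helper20.RL (RQ Rich BM Fml)

theorem r_pos (p : ℝ) : 0 < (2 : ℝ) ^ (-(p - 1)) := Real.rpow_pos_of_pos (by norm_num) _

theorem r_lt (p : ℝ) (hp : 1 < p) : (2 : ℝ) ^ (-(p - 1)) < 1 :=
  Real.rpow_lt_one_of_one_lt_of_neg (by norm_num) (by linarith)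

theorem r_pow (p : ℝ) (u : ℕ) :
    (2 : ℝ) ^ (-(p * u)) * (2 : ℝ) ^ u = ((2 : ℝ) ^ (-(p - 1))) ^ u := by
  rw [← Real.rpow_natCast, ← Real.rpow_natCast, ← Real.rpow_mul (by norm_num),
    ← Real.rpow_add (by norm_num)]
  congr 1
  ring

theorem geo (r : ℝ) (h0 : 0 < r) (h1 : r < 1) (u0 U₀ U₁ : ℕ) :
    ∑ u ∈ Finset.Icc U₀ U₁, (if u0 ≤ u then r ^ u else 0) ≤ r ^ u0 * (1 - r)⁻¹ := by
  have e1 : ∑ u ∈ Finset.Icc U₀ U₁, (if u0 ≤ u then r ^ u else 0) ≤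
      ∑ u ∈ Finset.Ico u0 (U₁ + 1), r ^ u := by
    rw [← Finset.sum_filter]
    refine Finset.sum_le_sum_of_subset_of_nonneg ?_ ?_
    · intro u hu
      rw [Finset.mem_filter, Finset.mem_Icc] at hu
      rw [Finset.mem_Ico]
      omega
    · intro u _ _
      positivity
  refine e1.trans ?_
  rw [Finset.sum_Ico_eq_sum_range]
  have e2 : ∑ k ∈ Finset.range (U₁ + 1 - u0), r ^ (u0 + k) =
      r ^ u0 * ∑ k ∈ Finset.range (U₁ + 1 - u0), r ^ k := by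
    rw [Finset.mul_sum]
    refine Finset.sum_congr rfl fun k _ => ?_
    rw [pow_add]
  rw [e2, ← tsum_geometric_of_lt_one h0.le h1]
  refine mul_le_mul_of_nonneg_left ?_ (by positivity)
  exact (summable_geometric_of_lt_one h0.le h1).sum_le_tsum _ (fun i _ => by positivity)

theorem inner (p x m c : ℝ) (hp : 1 < p) (hx : 0 ≤ x) (hm : 1 ≤ m) (hc : 0 ≤ c) (U₀ U₁ : ℕ) :
    ∑ u ∈ Finset.Icc U₀ U₁, (2 : ℝ) ^ (-(p * u)) *
      (if m ≤ (2 : ℝ) ^ u * x then c * (2 * ((2 : ℝ) ^ u * x)) else 0) ≤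
    (1 - (2 : ℝ) ^ (-(p - 1)))⁻¹ * m ^ (1 - p) * (2 * c * x ^ p) := by
  set r := (2 : ℝ) ^ (-(p - 1)) with hr
  have hr0 : 0 < r := r_pos p
  have hr1 : r < 1 := r_lt p hp
  rcases hx.eq_or_lt with h0 | h0
  · rw [← h0]
    have h1 : ∑ u ∈ Finset.Icc U₀ U₁, (2 : ℝ) ^ (-(p * u)) *
      (if m ≤ (2 : ℝ) ^ u * 0 then c * (2 * ((2 : ℝ) ^ u * 0)) else 0) = 0 := by
      refine Finset.sum_eq_zero fun u _ => ?_
      rw [if_neg (by rw [mul_zero]; linarith), mul_zero]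
    rw [h1, Real.zero_rpow (by linarith), mul_zero, mul_zero]
  · have hex : ∃ u : ℕ, m ≤ (2 : ℝ) ^ u * x := by
      obtain ⟨u, hu⟩ := pow_unbounded_of_one_lt (m / x) (by norm_num : (1 : ℝ) < 2)
      exact ⟨u, ((div_lt_iff₀ h0).1 hu).le⟩
    classical
    set u0 := Nat.find hex with hu0
    have hu1 : m ≤ (2 : ℝ) ^ u0 * x := Nat.find_spec hex
    have h2 : ∑ u ∈ Finset.Icc U₀ U₁, (2 : ℝ) ^ (-(p * u)) *
        (if m ≤ (2 : ℝ) ^ u * x then c * (2 * ((2 : ℝ) ^ u * x)) else 0) ≤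
        ∑ u ∈ Finset.Icc U₀ U₁, (2 * c * x) * (if u0 ≤ u then r ^ u else 0) := by
      refine Finset.sum_le_sum fun u _ => ?_
      by_cases h3 : m ≤ (2 : ℝ) ^ u * x
      · rw [if_pos h3, if_pos (Nat.find_min' hex h3), ← r_pow]
        exact le_of_eq (by ring)
      · rw [if_neg h3, mul_zero]
        refine mul_nonneg (by positivity) ?_
        split_ifs
        · positivity
        · exact le_rfl
    refine h2.trans ?_
    rw [← Finset.mul_sum]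
    have h3 := geo r hr0 hr1 u0 U₀ U₁
    have h4 : r ^ u0 ≤ m ^ (1 - p) * x ^ (p - 1) := by
      have h5 : m / x ≤ (2 : ℝ) ^ u0 := (div_le_iff₀ h0).2 hu1
      have h6 : ((2 : ℝ) ^ u0) ^ (-(p - 1)) ≤ (m / x) ^ (-(p - 1)) :=
        Real.rpow_le_rpow_of_nonpos (by positivity) h5 (by linarith)
      have h7 : r ^ u0 = ((2 : ℝ) ^ u0) ^ (-(p - 1)) := by
        rw [hr, ← Real.rpow_natCast, ← Real.rpow_natCast, ← Real.rpow_mul (by norm_num),
          ← Real.rpow_mul (by norm_num), mul_comm]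
      have h8 : (m / x) ^ (-(p - 1)) = m ^ (1 - p) * x ^ (p - 1) := by
        rw [Real.div_rpow (by linarith) hx, Real.rpow_neg hx (p - 1), div_inv_eq_mul]
        congr 2
        ring
      rw [h7, ← h8]
      exact h6
    have h9 : x * x ^ (p - 1) = x ^ p := by
      conv_lhs => rw [← Real.rpow_one x, ← Real.rpow_mul hx]
      rw [one_mul, ← Real.rpow_add h0]
      congr 1
      ring
    calc 2 * c * x * ∑ u ∈ Finset.Icc U₀ U₁, (if u0 ≤ u then r ^ u else 0)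
        ≤ 2 * c * x * (r ^ u0 * (1 - r)⁻¹) := mul_le_mul_of_nonneg_left h3 (by positivity)
      _ ≤ 2 * c * x * ((m ^ (1 - p) * x ^ (p - 1)) * (1 - r)⁻¹) := by
          refine mul_le_mul_of_nonneg_left ?_ (by positivity)
          refine mul_le_mul_of_nonneg_right h4 ?_
          rw [inv_nonneg]
          linarith
      _ = (1 - r)⁻¹ * m ^ (1 - p) * (2 * c * (x * x ^ (p - 1))) := by ring
      _ = (1 - r)⁻¹ * m ^ (1 - p) * (2 * c * x ^ p) := by rw [h9]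

theorem blocks (P : Par) (Δ : Dat) (h : Sy P Δ) (s : ℝ) (K : ℕ) :
    ∑ m ∈ Finset.range K, 2 * (2 : ℝ) ^ (m + 5) * (Δ.ell s (2 ^ (m + 2) - 1)) ^ P.p ≤
      32 * ∑ i ∈ Finset.range (2 ^ (K + 1) - 1), Δ.ell s (i + 1) ^ P.p := by
  have hp : 0 < P.p := by linarith [P.hs, P.hsp]
  induction K with
  | zero =>
    simp only [Finset.range_zero, Finset.sum_empty]
    refine mul_nonneg (by norm_num) (Finset.sum_nonneg fun i _ => ?_)
    exact Real.rpow_nonneg (h.unit s _).1 _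
  | succ K ih =>
    rw [Finset.sum_range_succ]
    have h1 : (2 : ℕ) ^ (K + 1 + 1) - 1 = (2 ^ (K + 1) - 1) + 2 ^ (K + 1) := by
      have : (2 : ℕ) ^ (K + 1 + 1) = 2 ^ (K + 1) + 2 ^ (K + 1) := by ring
      have h2 : 1 ≤ (2 : ℕ) ^ (K + 1) := Nat.one_le_two_pow
      omega
    have h1' : Finset.range (2 ^ (K + 1 + 1) - 1) = Finset.range ((2 ^ (K + 1) - 1) + 2 ^ (K + 1)) := by
      rw [h1]
    rw [h1', Finset.sum_range_add, mul_add]
    refine add_le_add ih ?_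
    have hmono : ∀ i j : ℕ, i ≤ j → Δ.ell s j ≤ Δ.ell s i := by
      intro i j hij
      induction hij with
      | refl => exact le_rfl
      | step _ ih => exact (h.mono s _).trans ih
    have h2 : ∑ k ∈ Finset.range (2 ^ (K + 1)), Δ.ell s (2 ^ (K + 2) - 1) ^ P.p ≤
        ∑ k ∈ Finset.range (2 ^ (K + 1)), Δ.ell s (2 ^ (K + 1) - 1 + k + 1) ^ P.p := by
      refine Finset.sum_le_sum fun k hk => ?_
      rw [Finset.mem_range] at hk
      refine Real.rpow_le_rpow (h.unit s _).1 (hmono _ _ ?_) hp.le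
      have : (2 : ℕ) ^ (K + 2) = 2 ^ (K + 1) + 2 ^ (K + 1) := by ring
      have h2 : 1 ≤ (2 : ℕ) ^ (K + 1) := Nat.one_le_two_pow
      omega
    rw [Finset.sum_const, Finset.card_range, nsmul_eq_mul] at h2
    push_cast at h2
    have h3 : 2 * (2 : ℝ) ^ (K + 5) * (Δ.ell s (2 ^ (K + 2) - 1)) ^ P.p =
        32 * ((2 : ℝ) ^ (K + 1) * (Δ.ell s (2 ^ (K + 2) - 1)) ^ P.p) := by ring
    rw [h3]
    exact mul_le_mul_of_nonneg_left h2 (by norm_num)

theorem hEZK : StEZK := by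
  intro P
  have hp : 1 < P.p := by linarith [P.hs, P.hsp]
  set C0 : ℝ := (1 - (2 : ℝ) ^ (-(P.p - 1)))⁻¹ with hC0
  have hC0' : 0 ≤ C0 := by
    rw [hC0, inv_nonneg]
    linarith [r_lt P.p hp]
  refine ⟨1 + 32 * C0 * P.A, by nlinarith [P.hA, mul_nonneg hC0' P.hA], ?_⟩
  intro Δ U₀ U₁ M s hS hq
  set m1 := max 1 M with hm1
  have hm : 1 ≤ m1 := le_max_left _ _
  have htq : ∀ u q : ℕ, 0 ≤ tq Δ u q M s := by
    intro u q
    unfold tq
    split_ifs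
    · have := (hS.unit s (2 ^ (q - 3) - 1)).1
      positivity
    · exact le_rfl
  set K := ∑ u ∈ Finset.Icc U₀ U₁, q1 P u with hK
  have h1 : ∀ u ∈ Finset.Icc U₀ U₁, ∑ q ∈ Finset.Ico (q0 P u) (q1 P u), tq Δ u q M s ≤
      ∑ m ∈ Finset.range K, tq Δ u (m + 5) M s := by
    intro u hu
    have h2 : ∑ m ∈ Finset.range K, tq Δ u (m + 5) M s = ∑ q ∈ Finset.Ico 5 (K + 5), tq Δ u q M s := by
      rw [Finset.sum_Ico_eq_sum_range, Nat.add_sub_cancel]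
      refine Finset.sum_congr rfl fun m _ => ?_
      rw [add_comm]
    rw [h2]
    refine Finset.sum_le_sum_of_subset_of_nonneg ?_ (fun q _ _ => htq u q)
    intro q hq'
    rw [Finset.mem_Ico] at hq' ⊢
    have h3 := hq u (Finset.mem_Icc.1 hu).1 (Finset.mem_Icc.1 hu).2
    have h4 : q1 P u ≤ K := Finset.single_le_sum (fun _ _ => Nat.zero_le _) hu
    omega
  have h2 : ∑ u ∈ Finset.Icc U₀ U₁, (2 : ℝ) ^ (-(P.p * u)) *
      ∑ q ∈ Finset.Ico (q0 P u) (q1 P u), tq Δ u q M s ≤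
      ∑ m ∈ Finset.range K, ∑ u ∈ Finset.Icc U₀ U₁, (2 : ℝ) ^ (-(P.p * u)) *
        tq Δ u (m + 5) M s := by
    rw [Finset.sum_comm]
    refine Finset.sum_le_sum fun u hu => ?_
    rw [← Finset.mul_sum]
    exact mul_le_mul_of_nonneg_left (h1 u hu) (Real.rpow_nonneg (by norm_num) _)
  refine h2.trans ?_
  have h3 : ∀ m ∈ Finset.range K, ∑ u ∈ Finset.Icc U₀ U₁, (2 : ℝ) ^ (-(P.p * u)) *
      tq Δ u (m + 5) M s ≤ C0 * m1 ^ (1 - P.p) *
        (2 * (2 : ℝ) ^ (m + 5) * (Δ.ell s (2 ^ (m + 2) - 1)) ^ P.p) := by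
    intro m _
    have h4 := inner P.p (Δ.ell s (2 ^ (m + 2) - 1)) m1 ((2 : ℝ) ^ (m + 5)) hp
      (hS.unit s _).1 hm (by positivity) U₀ U₁
    exact h4
  refine (Finset.sum_le_sum h3).trans ?_
  rw [← Finset.mul_sum]
  have h5 := (blocks P Δ hS s K).trans
    (mul_le_mul_of_nonneg_left (hS.sum s (2 ^ (K + 1) - 1)) (by norm_num : (0 : ℝ) ≤ 32))
  have h6 : 0 ≤ m1 ^ (1 - P.p) := Real.rpow_nonneg (by linarith) _
  calc C0 * m1 ^ (1 - P.p) * ∑ m ∈ Finset.range K,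
        2 * (2 : ℝ) ^ (m + 5) * (Δ.ell s (2 ^ (m + 2) - 1)) ^ P.p
      ≤ C0 * m1 ^ (1 - P.p) * (32 * P.A) :=
        mul_le_mul_of_nonneg_left h5 (mul_nonneg hC0' h6)
    _ ≤ (1 + 32 * C0 * P.A) * m1 ^ (1 - P.p) := by nlinarith

end Pool.Agent.Helper40.EP
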